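import Pool.Agent.Q75.BM.Stm

set_option autoImplicit false

namespace Pool.Agent.Q295.BM

open Filter Topology MeasureTheory Set
open scoped ContDiff
open Pool.Agent.Q75.BM

theorem t_FB : S_FB := by
  intro h K f c B hc hh hK hKl hf hfc hint hle hlow hB
  have h2π : (0 : ℝ) ≤ 2 * Real.pi := by positivity
  set μ : Measure ℝ := volume.restrict (Ioc 0 (2 * Real.pi)) with hμ
  have hμtot : μ.real univ = 2 * Real.pi := by
    rw [hμ, measureReal_restrict_apply_univ, Real.volume_real_Ioc_of_le h2π, sub_zero]
  have : IsFiniteMeasure μ := ⟨by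
    rw [hμ, Measure.restrict_apply_univ, Real.volume_Ioc]
    exact ENNReal.ofReal_lt_top⟩
  have hcst : ∀ x : ℝ, ∫ _ : ℝ, x ∂μ = 2 * Real.pi * x := by
    intro x
    rw [integral_const, hμtot, smul_eq_mul]
  have hi : ∀ l, Integrable (fun α => h α l) μ := fun l =>
    (intervalIntegrable_iff_integrableOn_Ioc_of_le h2π).mp (hint l)
  have hle' : ∀ l, ∀ᵐ α ∂μ, h α l ≤ K l := fun l => ae_restrict_of_ae (hle l)
  have hlow' : ∀ l, 2 * Real.pi * (K l - c) ≤ ∫ α, h α l ∂μ := by
    intro l
    have := hlow l
    rwa [intervalIntegral.integral_of_le h2π] at this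
  -- the absolute value
  have habs : ∀ l, ∫ α, |h α l| ∂μ ≤ 6 * Real.pi * |K l| + 2 * Real.pi * c := by
    intro l
    have h1 : ∫ α, |h α l| ∂μ ≤ ∫ α, (2 * |K l| - h α l) ∂μ := by
      apply integral_mono_ae (hi l).abs ((integrable_const _).sub (hi l))
      filter_upwards [hle' l] with α hα
      have h2 := le_abs_self (K l)
      have h3 := abs_nonneg (K l)
      show |h α l| ≤ 2 * |K l| - h α l
      rw [abs_le]
      constructor <;> linarith
    rw [integral_sub (integrable_const _) (hi l), hcst] at h1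
    have h2 := hlow' l
    have h3 := neg_abs_le (K l)
    nlinarith [Real.pi_pos]
  -- integrability on the product
  have hFm : Measurable (fun p : ℝ × ℂ => h p.1 p.2 * f p.2) :=
    (hh).mul (hf.measurable.comp measurable_snd)
  have hKf : Integrable (fun l => K l * f l) := by
    have h3 := hKl.integrable_smul_left_of_hasCompactSupport hf hfc
    refine h3.congr (Eventually.of_forall fun z => ?_)
    show f z • K z = K z * f z
    rw [smul_eq_mul, mul_comm]
  have hfi : Integrable f := hf.integrable_of_hasCompactSupport hfc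
  have hF : Integrable (fun p : ℝ × ℂ => h p.1 p.2 * f p.2) (μ.prod volume) := by
    rw [integrable_prod_iff' hFm.aestronglyMeasurable]
    refine ⟨Eventually.of_forall fun l => (hi l).mul_const (f l), ?_⟩
    have hb : Integrable (fun l => 6 * Real.pi * |K l * f l| + 2 * Real.pi * c * |f l|) :=
      (hKf.abs.const_mul _).add (hfi.abs.const_mul _)
    refine hb.mono' ?_ (Eventually.of_forall fun l => ?_)
    · have h1 : StronglyMeasurable (Function.uncurry fun (α : ℝ) (l : ℂ) => ‖h α l * f l‖) :=
        hFm.norm.stronglyMeasurable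
      exact (h1.integral_prod_left (μ := μ)).aestronglyMeasurable
    · have h1 : ∀ α, ‖h α l * f l‖ = |h α l| * |f l| := fun α => by
        rw [Real.norm_eq_abs, abs_mul]
      show ‖∫ α, ‖h α l * f l‖ ∂μ‖ ≤ _
      simp_rw [h1]
      rw [integral_mul_const, Real.norm_eq_abs, abs_mul, abs_abs, abs_mul,
        abs_of_nonneg (integral_nonneg fun α => abs_nonneg (h α l))]
      have h2 := mul_le_mul_of_nonneg_right (habs l) (abs_nonneg (f l))
      linarith
  -- Fubini
  have hfub : ∫ α, (∫ l, h α l * f l) ∂μ = ∫ l, (∫ α, h α l * f l ∂μ) :=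
    integral_integral_swap (f := fun (α : ℝ) (l : ℂ) => h α l * f l) hF
  have h1 : 2 * Real.pi * B ≤ ∫ α, (∫ l, h α l * f l) ∂μ := by
    rw [← hcst]
    apply integral_mono_ae (integrable_const _) hF.integral_prod_left
    exact ae_restrict_of_ae hB
  have hHi : Integrable (fun l => ∫ α, h α l * f l ∂μ) := hF.integral_prod_right
  have h2 : ∫ l, (∫ α, h α l * f l ∂μ) ≤ ∫ l, (2 * Real.pi * (K l * f l) +
      2 * Real.pi * c * |f l|) := by
    apply integral_mono hHi ((hKf.const_mul _).add (hfi.abs.const_mul _))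
    intro l
    show ∫ α, h α l * f l ∂μ ≤ 2 * Real.pi * (K l * f l) + 2 * Real.pi * c * |f l|
    rw [integral_mul_const]
    have h3 : ∫ α, h α l ∂μ ≤ 2 * Real.pi * K l := by
      rw [← hcst]
      exact integral_mono_ae (hi l) (integrable_const _) (hle' l)
    have h4 := hlow' l
    have h5 : |∫ α, h α l ∂μ - 2 * Real.pi * K l| ≤ 2 * Real.pi * c := by
      have h0 : 0 ≤ 2 * Real.pi * c := by positivity
      rw [abs_le]
      constructor <;> linarith
    have h6 := mul_le_mul_of_nonneg_right h5 (abs_nonneg (f l))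
    rw [← abs_mul] at h6
    have h7 := le_abs_self ((∫ α, h α l ∂μ - 2 * Real.pi * K l) * f l)
    linarith
  rw [integral_add (hKf.const_mul _) (hfi.abs.const_mul _), integral_const_mul,
    integral_const_mul] at h2
  rw [hfub] at h1
  have h3 : 2 * Real.pi * (B - c * ∫ l, |f l|) ≤ 2 * Real.pi * ∫ l, K l * f l := by
    linarith
  exact le_of_mul_le_mul_left h3 (by positivity)

end Pool.Agent.Q295.BM
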