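import Pool.Agent.Q75.BM.Stm

set_option autoImplicit false

namespace Pool.Agent.Q295.BM

open Filter Topology MeasureTheory Set
open scoped ContDiff
open Pool.Agent.Q75.BM

theorem test_add {φ ψ : ℂ → ℝ} (h1 : Test φ) (h2 : Test ψ) : Test (φ + ψ) :=
  ⟨h1.smooth.add h2.smooth, h1.comp.add h2.comp⟩

theorem test_smul (c : ℝ) {φ : ℂ → ℝ} (h1 : Test φ) : Test (c • φ) :=
  ⟨contDiff_const.smul h1.smooth, h1.comp.mono fun x hx h0 => hx (by
    show c • φ x = 0
    rw [h0, smul_zero])⟩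

/-- the support is in the closed ball of radius `R` -/
def Sp (g : ℂ → ℝ) (R : ℝ) : Prop := ∀ z, g z ≠ 0 → ‖z‖ ≤ R

theorem exists_bump (R : ℝ) : ∃ η : ℂ → ℝ, Test η ∧ (∀ z, 0 ≤ η z) ∧ ∀ z, ‖z‖ ≤ R → η z = 1 := by
  set η : ContDiffBump (0 : ℂ) := ⟨|R| + 1, |R| + 2, by positivity, by linarith⟩ with hη
  refine ⟨η, ⟨η.contDiff, η.hasCompactSupport⟩, fun z => η.nonneg, fun z hz => ?_⟩
  apply η.one_of_mem_closedBall
  rw [mem_closedBall_zero_iff]
  show ‖z‖ ≤ |R| + 1
  linarith [le_abs_self R]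

theorem exists_Sp {g : ℂ → ℝ} (hg : HasCompactSupport g) : ∃ R, Sp g R := by
  obtain ⟨R, hR⟩ := hg.isCompact.isBounded.subset_closedBall (0 : ℂ)
  refine ⟨R, fun z hz => ?_⟩
  have := hR (subset_tsupport g (Function.mem_support.2 hz))
  rwa [mem_closedBall_zero_iff] at this

section
variable (ℓ : (ℂ → ℝ) → ℝ) (hadd : ∀ φ ψ, Test φ → Test ψ → ℓ (φ + ψ) = ℓ φ + ℓ ψ)
    (hsmul : ∀ (c : ℝ) φ, Test φ → ℓ (c • φ) = c * ℓ φ)
    (hpos : ∀ φ, Test φ → (∀ z, 0 ≤ φ z) → 0 ≤ ℓ φ)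

include hadd hsmul hpos

theorem est {φ ψ η : ℂ → ℝ} {δ R : ℝ} (h1 : Test φ) (h2 : Test ψ) (h3 : Test η) (hδ : 0 ≤ δ)
    (hη : ∀ z, 0 ≤ η z) (hη1 : ∀ z, ‖z‖ ≤ R → η z = 1) (hφR : Sp φ R) (hψR : Sp ψ R)
    (h : ∀ z, |φ z - ψ z| ≤ δ) : |ℓ φ - ℓ ψ| ≤ δ * ℓ η := by
  have hb : ∀ z, |φ z - ψ z| ≤ δ * η z := by
    intro z
    by_cases hz : ‖z‖ ≤ R
    · rw [hη1 z hz, mul_one]
      exact h z
    · have e1 : φ z = 0 := by
        by_contra h0
        exact hz (hφR z h0)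
      have e2 : ψ z = 0 := by
        by_contra h0
        exact hz (hψR z h0)
      rw [e1, e2, sub_zero, abs_zero]
      exact mul_nonneg hδ (hη z)
  have k1 : 0 ≤ ℓ (δ • η + ((-1 : ℝ) • φ + ψ)) := by
    apply hpos _ (test_add (test_smul _ h3) (test_add (test_smul _ h1) h2))
    intro z
    have := (abs_le.mp (hb z)).2
    show 0 ≤ δ * η z + (-1 * φ z + ψ z)
    linarith
  have k2 : 0 ≤ ℓ (δ • η + (φ + (-1 : ℝ) • ψ)) := by
    apply hpos _ (test_add (test_smul _ h3) (test_add h1 (test_smul _ h2)))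
    intro z
    have := (abs_le.mp (hb z)).1
    show 0 ≤ δ * η z + (φ z + -1 * ψ z)
    linarith
  rw [hadd _ _ (test_smul _ h3) (test_add (test_smul _ h1) h2), hadd _ _ (test_smul _ h1) h2,
    hsmul _ _ h3, hsmul _ _ h1] at k1
  rw [hadd _ _ (test_smul _ h3) (test_add h1 (test_smul _ h2)), hadd _ _ h1 (test_smul _ h2),
    hsmul _ _ h3, hsmul _ _ h2] at k2
  rw [abs_le]
  constructor <;> linarith

open CompactlySupported in
theorem ext_meas : ∃ μ : Measure ℂ, IsLocallyFiniteMeasure μ ∧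
    ∀ φ, Test φ → ∫ z, φ z ∂μ = ℓ φ := by
  choose η hηT hη0 hη1 using exists_bump
  have he0 : ∀ R, 0 ≤ ℓ (η R) := fun R => hpos _ (hηT R) (hη0 R)
  have hest : ∀ (φ ψ : ℂ → ℝ) (δ R : ℝ), Test φ → Test ψ → 0 ≤ δ → Sp φ R → Sp ψ R →
      (∀ z, |φ z - ψ z| ≤ δ) → |ℓ φ - ℓ ψ| ≤ δ * ℓ (η R) := fun φ ψ δ R h1 h2 hδ h3 h4 h =>
    est ℓ hadd hsmul hpos h1 h2 (hηT R) hδ (hη0 R) (hη1 R) h3 h4 h
  have happ : ∀ (g : C_c(ℂ, ℝ)) (n : ℕ), ∃ φ : ℂ → ℝ, Test φ ∧
      (∀ z, |φ z - g z| ≤ 1 / ((n : ℝ) + 1)) ∧ Function.support φ ⊆ Function.support g := by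
    intro g n
    have hδ : (0 : ℝ) < 1 / ((n : ℝ) + 1) := by positivity
    obtain ⟨χ, hχ1, hχ2, hχ3⟩ := g.continuous.exists_contDiff_approx (⊤ : ℕ∞)
      (ε := fun _ => 1 / ((n : ℝ) + 1)) continuous_const (fun _ => hδ)
    refine ⟨χ, ⟨hχ1, g.hasCompactSupport.mono hχ3⟩, fun z => ?_, hχ3⟩
    have := hχ2 z
    rw [Real.dist_eq] at this
    exact this.le
  choose Φ hΦT hΦa hΦs using happ
  have hRad : ∀ g : C_c(ℂ, ℝ), ∃ R, Sp g R := fun g => exists_Sp g.hasCompactSupport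
  choose Rg hRg using hRad
  have hSpΦ : ∀ (g : C_c(ℂ, ℝ)) n R, Sp g R → Sp (Φ g n) R := fun g n R h z hz =>
    h z (hΦs g n hz)
  have hSpm : ∀ (g : ℂ → ℝ) (R R' : ℝ), R ≤ R' → Sp g R → Sp g R' := fun g R R' hR h z hz =>
    (h z hz).trans hR
  have hlim1 : Tendsto (fun n : ℕ => 1 / ((n : ℝ) + 1)) atTop (𝓝 0) :=
    tendsto_one_div_add_atTop_nhds_zero_nat
  have hconv : ∀ g : C_c(ℂ, ℝ), ∃ L : ℝ, Tendsto (fun n => ℓ (Φ g n)) atTop (𝓝 L) := by
    intro g
    apply cauchySeq_tendsto_of_complete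
    refine cauchySeq_of_le_tendsto_0 (fun n : ℕ => (2 * (1 / ((n : ℝ) + 1))) * ℓ (η (Rg g))) ?_ ?_
    · intro n m N hn hm
      rw [Real.dist_eq]
      refine hest _ _ _ _ (hΦT g n) (hΦT g m) (by positivity) (hSpΦ g n _ (hRg g))
        (hSpΦ g m _ (hRg g)) fun z => ?_
      have e1 : 1 / ((n : ℝ) + 1) ≤ 1 / ((N : ℝ) + 1) :=
        one_div_le_one_div_of_le (by positivity) (by
          have : (N : ℝ) ≤ n := by exact_mod_cast hn
          linarith)
      have e2 : 1 / ((m : ℝ) + 1) ≤ 1 / ((N : ℝ) + 1) :=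
        one_div_le_one_div_of_le (by positivity) (by
          have : (N : ℝ) ≤ m := by exact_mod_cast hm
          linarith)
      have h1 := abs_le.mp (hΦa g n z)
      have h2 := abs_le.mp (hΦa g m z)
      rw [abs_le]
      constructor <;> linarith [h1.1, h1.2, h2.1, h2.2]
    · have := (hlim1.const_mul 2).mul_const (ℓ (η (Rg g)))
      rw [mul_zero, zero_mul] at this
      exact this
  choose Lf hLf using hconv
  -- uniqueness
  have huniq : ∀ (g : C_c(ℂ, ℝ)) (ψ : ℕ → ℂ → ℝ) (R c : ℝ), 0 ≤ c → (∀ n, Test (ψ n)) →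
      (∀ n, Sp (ψ n) R) → (∀ n z, |ψ n z - g z| ≤ c * (1 / ((n : ℝ) + 1))) →
      Tendsto (fun n => ℓ (ψ n)) atTop (𝓝 (Lf g)) := by
    intro g ψ R c hc hψT hψR hψ
    set R' := max R (Rg g) with hR'
    have hb : ∀ n, |ℓ (ψ n) - ℓ (Φ g n)| ≤ ((c + 1) * (1 / ((n : ℝ) + 1))) * ℓ (η R') := by
      intro n
      refine hest _ _ _ _ (hψT n) (hΦT g n) (by positivity) (hSpm _ _ _ (le_max_left _ _) (hψR n))
        (hSpm _ _ _ (le_max_right _ _) (hSpΦ g n _ (hRg g))) fun z => ?_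
      have h1 := abs_le.mp (hΦa g n z)
      have h2 := abs_le.mp (hψ n z)
      rw [abs_le]
      constructor <;> linarith [h1.1, h1.2, h2.1, h2.2]
    have h0 : Tendsto (fun n => ℓ (ψ n) - ℓ (Φ g n)) atTop (𝓝 0) := by
      apply squeeze_zero_norm hb
      have := (hlim1.const_mul (c + 1)).mul_const (ℓ (η R'))
      rw [mul_zero, zero_mul] at this
      exact this
    have h1 := h0.add (hLf g)
    rw [zero_add] at h1
    exact h1.congr fun n => by ring
  -- the linear functional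
  set Λ0 : C_c(ℂ, ℝ) →ₗ[ℝ] ℝ :=
    { toFun := fun g => Lf g
      map_add' := by
        intro g h
        have h1 := (hLf g).add (hLf h)
        have h2 := huniq (g + h) (fun n => Φ g n + Φ h n) (max (Rg g) (Rg h)) 2 (by norm_num)
          (fun n => test_add (hΦT g n) (hΦT h n)) (fun n z hz => by
            by_contra hcon
            apply hz
            have e1 : Φ g n z = 0 := by
              by_contra h0
              exact hcon (hSpm _ _ _ (le_max_left _ _) (hSpΦ g n _ (hRg g)) z h0)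
            have e2 : Φ h n z = 0 := by
              by_contra h0
              exact hcon (hSpm _ _ _ (le_max_right _ _) (hSpΦ h n _ (hRg h)) z h0)
            show Φ g n z + Φ h n z = 0
            rw [e1, e2, add_zero])
          (fun n z => by
            have h1 := abs_le.mp (hΦa g n z)
            have h2 := abs_le.mp (hΦa h n z)
            show |Φ g n z + Φ h n z - (g z + h z)| ≤ _
            rw [abs_le]
            constructor <;> linarith [h1.1, h1.2, h2.1, h2.2])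
        refine tendsto_nhds_unique h2 (h1.congr fun n => ?_)
        rw [hadd _ _ (hΦT g n) (hΦT h n)]
      map_smul' := by
        intro c g
        have h1 := (hLf g).const_mul c
        have h2 := huniq (c • g) (fun n => c • Φ g n) (Rg g) |c| (abs_nonneg _)
          (fun n => test_smul c (hΦT g n)) (fun n z hz => hSpΦ g n _ (hRg g) z (fun h0 => hz (by
            show c * Φ g n z = 0
            rw [h0, mul_zero])))
          (fun n z => by
            show |c * Φ g n z - c * g z| ≤ _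
            rw [← mul_sub, abs_mul]
            exact mul_le_mul_of_nonneg_left (hΦa g n z) (abs_nonneg _))
        refine tendsto_nhds_unique h2 (h1.congr fun n => ?_)
        rw [hsmul _ _ (hΦT g n)] } with hΛ0
  have hΛ0' : ∀ g, Λ0 g = Lf g := fun g => rfl
  set Λ : C_c(ℂ, ℝ) →ₚ[ℝ] ℝ := PositiveLinearMap.mk₀ Λ0 (by
    intro g hg
    rw [hΛ0']
    have h1 : Tendsto (fun n : ℕ => ℓ (Φ g n) + (1 / ((n : ℝ) + 1)) * ℓ (η (Rg g))) atTop
        (𝓝 (Lf g)) := by
      have := (hLf g).add (hlim1.mul_const (ℓ (η (Rg g))))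
      rw [zero_mul, add_zero] at this
      exact this
    refine ge_of_tendsto' h1 fun n => ?_
    rw [← hsmul _ _ (hηT _), ← hadd _ _ (hΦT g n) (test_smul _ (hηT _))]
    apply hpos _ (test_add (hΦT g n) (test_smul _ (hηT _)))
    intro z
    show 0 ≤ Φ g n z + (1 / ((n : ℝ) + 1)) * η (Rg g) z
    by_cases hz : g z = 0
    · have e1 : Φ g n z = 0 := by
        by_contra h0
        exact hΦs g n (Function.mem_support.2 h0) hz
      rw [e1, zero_add]
      exact mul_nonneg (by positivity) (hη0 _ z)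
    · rw [hη1 _ z (hRg g z hz), mul_one]
      have h2 := (abs_le.mp (hΦa g n z)).1
      have h3 : 0 ≤ g z := hg z
      linarith) with hΛ
  refine ⟨RealRMK.rieszMeasure Λ, ?_, ?_⟩
  · have hfin : IsFiniteMeasureOnCompacts (RealRMK.rieszMeasure Λ) := by
      refine ⟨fun K hK => ?_⟩
      obtain ⟨R, hR⟩ := hK.isBounded.subset_closedBall (0 : ℂ)
      set ηc : C_c(ℂ, ℝ) := ⟨⟨η R, (hηT R).smooth.continuous⟩, (hηT R).comp⟩ with hηc
      have h1 := RealRMK.rieszMeasure_le_of_eq_one Λ (f := ηc) (K := K) (fun z => hη0 R z) hK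
        (fun z hz => by
          show η R z = 1
          apply hη1
          have := hR hz
          rwa [mem_closedBall_zero_iff] at this)
      exact lt_of_le_of_lt h1 ENNReal.ofReal_lt_top
    exact isLocallyFiniteMeasure_of_isFiniteMeasureOnCompacts
  · intro φ hφ
    set φc : C_c(ℂ, ℝ) := ⟨⟨φ, hφ.smooth.continuous⟩, hφ.comp⟩ with hφc
    have h1 := RealRMK.integral_rieszMeasure Λ φc
    have h2 : ∫ z, φ z ∂(RealRMK.rieszMeasure Λ) = Lf φc := h1
    rw [h2]
    have h3 := huniq φc (fun _ => φ) (Rg φc) 0 le_rfl (fun _ => hφ) (fun _ => hRg φc)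
      (fun n z => by
        show |φ z - φ z| ≤ _
        rw [sub_self, abs_zero, zero_mul])
    exact tendsto_nhds_unique h3 tendsto_const_nhds

end

theorem two {φ : ℂ → ℝ} (h : ContDiff ℝ ∞ φ) : ContDiff ℝ 2 φ := by
  have h1 := contDiff_infty.mp h 2
  exact_mod_cast h1

theorem t_RM : S_RM := by
  intro χ hχ hpos
  have hint : ∀ φ : ℂ → ℝ, Test φ → Integrable (fun z => χ z * Lap φ z) := by
    intro φ hφ
    have h2 : ContDiff ℝ 2 φ := two hφ.smooth
    have h3 := hχ.integrable_smul_left_of_hasCompactSupport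
      (Pool.Agent.Q72.WE.LL.continuous_laplacian h2)
      (Pool.Agent.Q72.WE.LL.hasCompactSupport_laplacian h2 hφ.comp)
    refine h3.congr (Eventually.of_forall fun z => ?_)
    show Lap φ z • χ z = χ z * Lap φ z
    rw [smul_eq_mul, mul_comm]
  obtain ⟨μ, hμ1, hμ2⟩ := ext_meas (fun φ => (1 / (2 * Real.pi)) * ∫ z, χ z * Lap φ z)
    (by
      intro φ ψ hφ hψ
      rw [← mul_add, ← integral_add (hint φ hφ) (hint ψ hψ)]
      congr 2
      funext z
      have h1 : ContDiffAt ℝ 2 φ z := (two hφ.smooth).contDiffAt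
      have h2 : ContDiffAt ℝ 2 ψ z := (two hψ.smooth).contDiffAt
      have h3 : Lap (φ + ψ) z = Lap φ z + Lap ψ z := h1.laplacian_add h2
      rw [h3, mul_add])
    (by
      intro c φ hφ
      have h4 : ∀ z, χ z * Lap (c • φ) z = c * (χ z * Lap φ z) := by
        intro z
        have h1 : ContDiffAt ℝ 2 φ z := (two hφ.smooth).contDiffAt
        have h3 : Lap (c • φ) z = c • Lap φ z := InnerProductSpace.laplacian_smul c h1
        rw [h3, smul_eq_mul]
        ring
      simp_rw [h4]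
      rw [integral_const_mul]
      ring)
    (by
      intro φ hφ h0
      have := hpos φ hφ h0
      positivity)
  exact ⟨μ, hμ1, fun φ h1 h2 => hμ2 φ ⟨h1, h2⟩⟩

end Pool.Agent.Q295.BM
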